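import Pool.Agent.Run7.h723.OG.Iface2

set_option autoImplicit false

/-! Piece R12 of project OG (helper942). -/

namespace Pool.Agent.Run7.h942.OG

open Pool.H723.OG

/-- the average bound -/
theorem sum_lt {V : Type} [Fintype V] [DecidableEq V] (G : SimpleGraph V) (a M B : ℕ) (hn : 3 ≤ Fintype.card V)
    (h1 : ∀ v, 1 ≤ dg G v) (h1c : ∀ v, 1 ≤ dg Gᶜ v) (hDC : S_DC)
    (hb : ∀ v w, v ≠ w → dg G v < a → dg G w < a → False)
    (hbc : ∀ v w, v ≠ w → dg Gᶜ v < a → dg Gᶜ w < a → False)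
    (hM : ∀ d : ℕ, 1 ≤ d → d + 2 ≤ Fintype.card V → H4 (Fintype.card V) d ≤ M)
    (hB : ∀ d : ℕ, a ≤ d → d + a + 1 ≤ Fintype.card V → (Fintype.card V - 2) * H4 (Fintype.card V) d + 2 * M < B) :
    ∑ v, H4 (Fintype.card V) (dg G v) < B := by
  classical
  set n := Fintype.card V with hndef
  set E1 : Finset V := Finset.univ.filter fun v => dg G v < a with hE1
  set E2 : Finset V := Finset.univ.filter fun v => dg Gᶜ v < a with hE2
  have c1 : E1.card ≤ 1 := by
    rw [Finset.card_le_one]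
    intro v hv w hw
    by_contra h
    exact hb v w h (Finset.mem_filter.1 hv).2 (Finset.mem_filter.1 hw).2
  have c2 : E2.card ≤ 1 := by
    rw [Finset.card_le_one]
    intro v hv w hw
    by_contra h
    exact hbc v w h (Finset.mem_filter.1 hv).2 (Finset.mem_filter.1 hw).2
  set Bd : Finset V := E1 ∪ E2 with hBd
  have cB : Bd.card ≤ 2 := (Finset.card_union_le _ _).trans (by omega)
  have hcompl : Bdᶜ.card = n - Bd.card := Finset.card_compl _
  have hne : (Bdᶜ).Nonempty := by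
    rw [← Finset.card_pos, hcompl]
    omega
  obtain ⟨w, hw, hmax⟩ := Finset.exists_max_image Bdᶜ (fun v => H4 n (dg G v)) hne
  have hgood : a ≤ dg G w ∧ a ≤ dg Gᶜ w := by
    rw [Finset.mem_compl, hBd, Finset.mem_union, not_or] at hw
    obtain ⟨h3, h4⟩ := hw
    rw [hE1, Finset.mem_filter] at h3
    rw [hE2, Finset.mem_filter] at h4
    simp only [Finset.mem_univ, true_and, not_lt] at h3 h4
    exact ⟨h3, h4⟩
  have hall : ∀ v, H4 n (dg G v) ≤ M := by
    intro v
    have h5 := hDC V G v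
    have h6 := h1 v
    have h7 := h1c v
    exact hM _ h6 (by omega)
  have hsplit : ∑ v, H4 n (dg G v) = ∑ v ∈ Bd, H4 n (dg G v) + ∑ v ∈ Bdᶜ, H4 n (dg G v) :=
    (Finset.sum_add_sum_compl Bd _).symm
  have s1 : ∑ v ∈ Bd, H4 n (dg G v) ≤ Bd.card * M := by
    have := Finset.sum_le_card_nsmul Bd (fun v => H4 n (dg G v)) M (fun v _ => hall v)
    simpa using this
  have s2 : ∑ v ∈ Bdᶜ, H4 n (dg G v) ≤ (n - Bd.card) * H4 n (dg G w) := by
    have := Finset.sum_le_card_nsmul Bdᶜ (fun v => H4 n (dg G v)) (H4 n (dg G w)) (fun v hv => hmax v hv)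
    rw [hcompl] at this
    simpa using this
  have hBw := hB (dg G w) hgood.1 (by have := hDC V G w; omega)
  have hwM := hall w
  have s3 : Bd.card * M + (n - Bd.card) * H4 n (dg G w) ≤ (n - 2) * H4 n (dg G w) + 2 * M := by
    obtain ⟨e, he⟩ : ∃ e, Bd.card + e = 2 := ⟨2 - Bd.card, by omega⟩
    have h8 : n - Bd.card = (n - 2) + e := by omega
    rw [h8, add_mul]
    have h9 : e * H4 n (dg G w) ≤ e * M := Nat.mul_le_mul_left e hwM
    have h10 : 2 * M = Bd.card * M + e * M := by rw [← add_mul, he]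
    omega
  omega

theorem t_R12 (hCOST : S_COST) (hTRI : S_TRI) (hPAIR : S_PAIR) (hAV4 : S_AV4) (hDC : S_DC) (hNUM : S_NUM) : S_R12 := by
  intro V _ _ G hn12 hn119 h1 h1c hlow hlowc hh hhc
  classical
  set n := Fintype.card V with hndef
  set S := (2 * n + 9) / 3 with hS
  set t := S - n / 2 - 2 with ht
  have ht3 : 3 ≤ t := by omega
  have hSt : n / 2 + (t + 2) = S := by omega
  have hS3 : 3 * S ≤ 2 * n + 9 := by omega
  -- done if one of the two graphs has `Le (t + 2)`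
  by_cases hA : Le G (t + 2)
  · exact ⟨t + 2, n / 2, hA, hhc, by omega⟩
  by_cases hB : Le Gᶜ (t + 2)
  · exact ⟨n / 2, t + 2, hh, hB, by omega⟩
  have hw : ∀ x y z : V, x ≠ y → x ≠ z → y ≠ z → 2 * t ≤ w3 G x y z := by
    intro x y z hxy hxz hyz
    by_contra hcon
    apply hB
    have h2 := hTRI V G x y z (t - 1) hxy hxz hyz (by unfold w3 at hcon; omega)
    have e : 3 + (t - 1) = t + 2 := by omega
    rwa [e] at h2
  have hwc : ∀ x y z : V, x ≠ y → x ≠ z → y ≠ z → 2 * t ≤ w3 Gᶜ x y z := by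
    intro x y z hxy hxz hyz
    by_contra hcon
    apply hA
    have h2 := hTRI V Gᶜ x y z (t - 1) hxy hxz hyz (by unfold w3 at hcon; omega)
    have e : 3 + (t - 1) = t + 2 := by omega
    rw [compl_compl] at h2
    rwa [e] at h2
  have hp : ∀ x y : V, x ≠ y → 3 * t + 1 ≤ dg G x + dg G y := by
    intro x y hxy
    by_contra hcon
    apply hA
    refine hPAIR V G t x y ht3 hw hxy (h1 x) (h1 y) ?_ (by omega)
    rintro ⟨hx, hy⟩
    have hxl : x ∈ low G 2 := by
      unfold low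
      simp [hx]
    have hyl : y ∈ low G 2 := by
      unfold low
      simp [hy]
    exact hxy (Finset.card_le_one.1 hlow x hxl y hyl)
  have hpc : ∀ x y : V, x ≠ y → 3 * t + 1 ≤ dg Gᶜ x + dg Gᶜ y := by
    intro x y hxy
    by_contra hcon
    apply hB
    refine hPAIR V Gᶜ t x y ht3 hwc hxy (h1c x) (h1c y) ?_ (by omega)
    rintro ⟨hx, hy⟩
    have hxl : x ∈ low Gᶜ 2 := by
      unfold low
      simp [hx]
    have hyl : y ∈ low Gᶜ 2 := by
      unfold low
      simp [hy]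
    exact hxy (Finset.card_le_one.1 hlowc x hxl y hyl)
  obtain ⟨hN1, hN2⟩ := hNUM n hn12 hn119
  set C := n.choose 4 with hC
  have hC0 : 0 < C := Nat.choose_pos (by omega)
  have hsum : ∑ v, H4 n (dg G v) < (2 * S - 14) * C := by
    refine sum_lt G ((3 * t + 2) / 2) (H4 n 1) ((2 * S - 14) * C) (by omega) h1 h1c hDC ?_ ?_ hN1 ?_
    · intro v w hvw hv hw'
      have := hp v w hvw
      omega
    · intro v w hvw hv hw'
      have := hpc v w hvw
      omega
    · intro d hd hd2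
      exact hN2 d hd hd2
  obtain ⟨D₁, hD₁⟩ := hAV4 V G (by omega)
  obtain ⟨D₂, hD₂⟩ := hAV4 V Gᶜ (by omega)
  rw [← hndef, ← hC] at hD₁ hD₂
  have hH : ∑ v, H4 n (dg G v) = ∑ v, h4 n (dg G v) + ∑ v, h4 n (dg Gᶜ v) := by
    rw [← Finset.sum_add_distrib]
    refine Finset.sum_congr rfl fun v _ => ?_
    have h5 := hDC V G v
    have h6 : dg Gᶜ v = n - 1 - dg G v := by omega
    rw [h6]
    rfl
  have hfin : (cost2 G D₁ + cost2 Gᶜ D₂) * C < (2 * S + 2) * C := by
    have e1 : (2 * S + 2) * C = 16 * C + (2 * S - 14) * C := by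
      rw [← add_mul]
      congr 1
      omega
    rw [e1, add_mul]
    rw [hH] at hsum
    omega
  have hlt : cost2 G D₁ + cost2 Gᶜ D₂ < 2 * S + 2 := lt_of_mul_lt_mul_right hfin (Nat.zero_le C)
  refine ⟨cost2 G D₁ / 2, cost2 Gᶜ D₂ / 2, hCOST V G D₁ _ (by omega), hCOST V Gᶜ D₂ _ (by omega), by omega⟩

end Pool.Agent.Run7.h942.OG
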