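import Pool.Agent.Run7.h723.OG.Iface2

set_option autoImplicit false

/-! Piece SMALL of project OG (helper942). -/

namespace Pool.Agent.Run7.h942.OG

open Pool.H723.OG

theorem exists_adj {V : Type} [Fintype V] {G : SimpleGraph V} (hG : G.Connected) (h2 : 2 ≤ Fintype.card V) (v : V) :
    ∃ u, G.Adj v u := by
  have : Nontrivial V := Fintype.one_lt_card_iff_nontrivial.1 (by omega)
  obtain ⟨w, hw⟩ := exists_ne v
  obtain ⟨p⟩ := hG.preconnected v w
  cases p with
  | nil => exact absurd rfl hw
  | cons h _ => exact ⟨_, h⟩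

theorem t_SMALL (hCOST : S_COST) (hTWOTH : S_TWOTH) (hHALF : S_HALF) (hDC : S_DC) : S_SMALL := by
  intro V _ _ G hn hG hGc
  classical
  have hne : Nonempty V := hG.nonempty
  have h0 : 0 < Fintype.card V := Fintype.card_pos
  by_cases h1 : Fintype.card V = 1
  · have key : ∀ H : SimpleGraph V, Le H 1 := by
      intro H
      refine hCOST V H Finset.univ 1 ?_
      unfold cost2 lev
      have e : ∀ j, (Finset.univ.filter fun v : V => v ∉ (Finset.univ : Finset V) ∧ nb H Finset.univ v = j) = ∅ := by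
        intro j
        rw [Finset.filter_eq_empty_iff]
        intro v _ hv
        exact hv.1 (Finset.mem_univ v)
      simp only [e, Finset.card_empty, Finset.card_univ, h1]
      norm_num
    exact ⟨1, 1, key G, key Gᶜ, by omega⟩
  have h2 : 2 ≤ Fintype.card V := by omega
  obtain ⟨k₁, hk₁, hk₁'⟩ := hTWOTH V G (exists_adj hG h2)
  obtain ⟨k₂, hk₂, hk₂'⟩ := hTWOTH V Gᶜ (exists_adj hGc h2)
  by_cases h6 : Fintype.card V = 6
  · have hsum : (low G 2).card + (low Gᶜ 2).card = 6 := by
      have e : low Gᶜ 2 = (low G 2)ᶜ := by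
        ext v
        unfold low
        have := hDC V G v
        simp only [Finset.mem_filter, Finset.mem_univ, true_and, Finset.mem_compl]
        omega
      rw [e, Finset.card_compl, h6]
      have := Finset.card_le_univ (low G 2)
      omega
    rcases (by omega : (low G 2).card ≤ 3 ∨ (low Gᶜ 2).card ≤ 3) with h | h
    · obtain ⟨l, hl, hl'⟩ := hHALF V G (exists_adj hG h2)
      exact ⟨l, k₂, hl, hk₂, by omega⟩
    · obtain ⟨l, hl, hl'⟩ := hHALF V Gᶜ (exists_adj hGc h2)
      exact ⟨k₁, l, hk₁, hl, by omega⟩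
  · exact ⟨k₁, k₂, hk₁, hk₂, by omega⟩

end Pool.Agent.Run7.h942.OG
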